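import Pool.Agent.TH613.Area

set_option autoImplicit false

/-!
# A metric arbitrarily close to that of a torus of revolution without isometric immersion

For every torus of revolution in Euclidean 3-space and every `ε > 0` there is a smooth metric on
the 2-torus whose `C⁰` distance to the induced metric is less than `ε` and which is not induced by
any immersion of class `C³` into Euclidean 3-space (embedded or not).

Idea.  Every closed immersed surface has total positive curvature at least `4π`: the normals at the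
points of contact with the supporting planes of the convex hull cover the sphere.  The torus of
revolution has total positive curvature exactly `4π`, and the metrics
`(R + s cos v)² du² + r² dv²` with `s < r` have total positive curvature `4π s / r < 4π`.
-/

namespace Pool.Agent.Results.MP_665542_gt.TorusNotStable

open scoped ContDiff
open Set

/-- Euclidean 3-space -/
abbrev E3 := EuclideanSpace ℝ (Fin 3)

/-- The function `f` on the plane is `2π`-periodic in both variables, that is, it is a function on
the torus `T² = ℝ² / (2πℤ)²`. -/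
def OnTorus {α : Type*} (f : ℝ × ℝ → α) : Prop :=
  ∀ x : ℝ × ℝ, f (x.1 + 2 * Real.pi, x.2) = f x ∧ f (x.1, x.2 + 2 * Real.pi) = f x

/-- The two coordinate vectors of the plane. -/
def vec : Fin 2 → ℝ × ℝ := ![(1, 0), (0, 1)]

/-- A smooth Riemannian metric on the torus `T² = ℝ² / (2πℤ)²`, given by its matrix of coefficients
in the coordinates `(u, v)`. -/
structure TorusMetric where
  /-- the coefficients -/
  g : ℝ × ℝ → Matrix (Fin 2) (Fin 2) ℝ
  smooth : ∀ i j, ContDiff ℝ ∞ fun x => g x i j
  onTorus : OnTorus g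
  posDef : ∀ x, (g x).PosDef

/-- The map `f` is an isometric immersion of class `C^n` of the torus with the metric `g` into
Euclidean 3-space: it is of class `C^n` and the pull-back of the Euclidean metric is `g`. -/
structure IsIsometricImmersion (n : WithTop ℕ∞) (g : TorusMetric) (f : ℝ × ℝ → E3) : Prop where
  contDiff : ContDiff ℝ n f
  onTorus : OnTorus f
  isometric : ∀ x i j, inner ℝ (fderiv ℝ f x (vec i)) (fderiv ℝ f x (vec j)) = g.g x i j

/-- The map `f` is a smooth isometric embedding of the torus with the metric `g` into Euclidean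
3-space: a smooth isometric immersion that is injective on `T² = ℝ² / (2πℤ)²`. -/
structure IsIsometricEmbedding (g : TorusMetric) (f : ℝ × ℝ → E3) : Prop extends
    IsIsometricImmersion ∞ g f where
  injective : ∀ x y, f x = f y →
    ∃ m n : ℤ, y = (x.1 + m * (2 * Real.pi), x.2 + n * (2 * Real.pi))

/-- The norm of the symmetric tensor `h` with respect to the inner product `g`:
`|h|² = ∑ g^{ij} g^{kl} h_{jk} h_{li}`. -/
noncomputable def tensorNorm (g h : Matrix (Fin 2) (Fin 2) ℝ) : ℝ :=
  Real.sqrt (Matrix.trace (g⁻¹ * h * (g⁻¹ * h)))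

/-- The `C⁰` distance of `g` to `g₀`: the supremum of the `g₀`-norm of `g - g₀`. -/
noncomputable def c0dist (g g₀ : TorusMetric) : ENNReal :=
  ⨆ x, ENNReal.ofReal (tensorNorm (g₀.g x) (g.g x - g₀.g x))

/-- The torus of revolution with radii `R > r > 0`. -/
noncomputable def torus (R r : ℝ) (x : ℝ × ℝ) : E3 :=
  !₂[(R + r * Real.cos x.2) * Real.cos x.1, (R + r * Real.cos x.2) * Real.sin x.1,
    r * Real.sin x.2]

/-- The metric `(R + s cos v)² du² + r² dv²`. -/
noncomputable def met (R s r : ℝ) (hr : 0 < r) (hs : 0 ≤ s) (hR : s < R) : TorusMetric where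
  g x := Matrix.diagonal ![(R + s * Real.cos x.2) ^ 2, r ^ 2]
  smooth i j := by
    by_cases h : i = j
    · subst h
      fin_cases i
      · simp only [Fin.zero_eta, Matrix.diagonal_apply_eq, Matrix.cons_val_zero]
        fun_prop
      · simp only [Fin.mk_one, Matrix.diagonal_apply_eq, Matrix.cons_val_one]
        fun_prop
    · simp only [Matrix.diagonal_apply_ne _ h]
      exact contDiff_const
  onTorus x := by simp
  posDef x := by
    rw [Matrix.posDef_diagonal_iff]
    have h3 := Real.neg_one_le_cos x.2
    have h4 : 0 < R + s * Real.cos x.2 := by nlinarith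
    intro i
    fin_cases i
    · simp only [Fin.zero_eta, Matrix.cons_val_zero]; positivity
    · simp only [Fin.mk_one, Matrix.cons_val_one]
      exact pow_pos hr 2

theorem torus_hasFDerivAt (R r : ℝ) (x : ℝ × ℝ) (h : ℝ × ℝ) : fderiv ℝ (torus R r) x h =
    !₂[-(R + r * Real.cos x.2) * Real.sin x.1 * h.1 - r * Real.sin x.2 * Real.cos x.1 * h.2,
      (R + r * Real.cos x.2) * Real.cos x.1 * h.1 - r * Real.sin x.2 * Real.sin x.1 * h.2,
      r * Real.cos x.2 * h.2] := by
  have c1 : HasFDerivAt (fun y : ℝ × ℝ => Real.cos y.1)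
      ((-Real.sin x.1) • ContinuousLinearMap.fst ℝ ℝ ℝ) x := HasFDerivAt.cos hasFDerivAt_fst
  have s1 : HasFDerivAt (fun y : ℝ × ℝ => Real.sin y.1)
      ((Real.cos x.1) • ContinuousLinearMap.fst ℝ ℝ ℝ) x := HasFDerivAt.sin hasFDerivAt_fst
  have c2 : HasFDerivAt (fun y : ℝ × ℝ => Real.cos y.2)
      ((-Real.sin x.2) • ContinuousLinearMap.snd ℝ ℝ ℝ) x := HasFDerivAt.cos hasFDerivAt_snd
  have s2 : HasFDerivAt (fun y : ℝ × ℝ => Real.sin y.2)
      ((Real.cos x.2) • ContinuousLinearMap.snd ℝ ℝ ℝ) x := HasFDerivAt.sin hasFDerivAt_snd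
  have d : Differentiable ℝ (torus R r) := by
    have : ContDiff ℝ 1 (torus R r) := by
      rw [contDiff_euclidean]
      intro i
      unfold torus
      fin_cases i <;> simp <;> fun_prop
    exact this.differentiable (by norm_num)
  have hco : ∀ i : Fin 3, (fderiv ℝ (torus R r) x h) i =
      fderiv ℝ (fun y => torus R r y i) x h := by
    intro i
    have h1 : HasFDerivAt (fun y => (EuclideanSpace.proj i : E3 →L[ℝ] ℝ) (torus R r y)) _ x :=
      (EuclideanSpace.proj i : E3 →L[ℝ] ℝ).hasFDerivAt.comp x (d x).hasFDerivAt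
    have h2 := h1.fderiv
    change fderiv ℝ (fun y => torus R r y i) x = _ at h2
    rw [h2]
    rfl
  have a2 := (c2.const_mul r).const_add R
  have t0 : fderiv ℝ (fun y : ℝ × ℝ => (R + r * Real.cos y.2) * Real.cos y.1) x = _ :=
    (a2.mul c1).fderiv
  have t1 : fderiv ℝ (fun y : ℝ × ℝ => (R + r * Real.cos y.2) * Real.sin y.1) x = _ :=
    (a2.mul s1).fderiv
  have t2 := (s2.const_mul r).fderiv
  ext i
  rw [hco]
  fin_cases i
  · change fderiv ℝ (fun y : ℝ × ℝ => (R + r * Real.cos y.2) * Real.cos y.1) x h = _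
    rw [t0]
    simp
    ring
  · change fderiv ℝ (fun y : ℝ × ℝ => (R + r * Real.cos y.2) * Real.sin y.1) x h = _
    rw [t1]
    simp
    ring
  · change fderiv ℝ (fun y : ℝ × ℝ => r * Real.sin y.2) x h = _
    rw [t2]
    simp
    ring

theorem torus_embedding (R r : ℝ) (hr : 0 < r) (hR : r < R) :
    IsIsometricEmbedding (met R r r hr hr.le hR) (torus R r) where
  contDiff := by
    rw [contDiff_euclidean]
    intro i
    unfold torus
    fin_cases i <;> simp <;> fun_prop
  onTorus x := by simp [torus]
  isometric x i j := by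
    have h1 := Real.sin_sq_add_cos_sq x.1
    have h2 := Real.sin_sq_add_cos_sq x.2
    rw [Pool.Agent.TH613.inner3]
    rw [torus_hasFDerivAt, torus_hasFDerivAt]
    unfold met vec
    fin_cases i <;> fin_cases j <;> simp [Matrix.diagonal]
    · linear_combination ((R + r * Real.cos x.2) ^ 2) * h1
    · ring
    · ring
    · linear_combination (r ^ 2 * Real.sin x.2 ^ 2) * h1 + r ^ 2 * h2
  injective x y hxy := by
    have hpos : ∀ t : ℝ, 0 < R + r * Real.cos t := by
      intro t
      have := Real.neg_one_le_cos t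
      nlinarith
    have e0 : (R + r * Real.cos x.2) * Real.cos x.1 = (R + r * Real.cos y.2) * Real.cos y.1 :=
      congrArg (fun z : E3 => z 0) hxy
    have e1 : (R + r * Real.cos x.2) * Real.sin x.1 = (R + r * Real.cos y.2) * Real.sin y.1 :=
      congrArg (fun z : E3 => z 1) hxy
    have e2 : r * Real.sin x.2 = r * Real.sin y.2 := congrArg (fun z : E3 => z 2) hxy
    have hx1 := Real.sin_sq_add_cos_sq x.1
    have hy1 := Real.sin_sq_add_cos_sq y.1
    have q : (R + r * Real.cos x.2) ^ 2 = (R + r * Real.cos y.2) ^ 2 := by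
      have : ((R + r * Real.cos x.2) * Real.cos x.1) ^ 2 +
          ((R + r * Real.cos x.2) * Real.sin x.1) ^ 2 =
          ((R + r * Real.cos y.2) * Real.cos y.1) ^ 2 +
          ((R + r * Real.cos y.2) * Real.sin y.1) ^ 2 := by rw [e0, e1]
      linear_combination this - (R + r * Real.cos x.2) ^ 2 * hx1 +
        (R + r * Real.cos y.2) ^ 2 * hy1
    have q1 : R + r * Real.cos x.2 = R + r * Real.cos y.2 :=
      (pow_left_inj₀ (hpos _).le (hpos _).le two_ne_zero).1 q
    have q2 : Real.cos y.2 = Real.cos x.2 := by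
      have : r * (Real.cos y.2 - Real.cos x.2) = 0 := by linarith
      rcases mul_eq_zero.1 this with h | h
      · exact absurd h hr.ne'
      · linarith
    have q3 : Real.sin y.2 = Real.sin x.2 := by
      have : r * (Real.sin y.2 - Real.sin x.2) = 0 := by linarith
      rcases mul_eq_zero.1 this with h | h
      · exact absurd h hr.ne'
      · linarith
    rw [q1] at e0 e1
    have q4 : Real.cos y.1 = Real.cos x.1 := (mul_left_cancel₀ (hpos _).ne' e0).symm
    have q5 : Real.sin y.1 = Real.sin x.1 := (mul_left_cancel₀ (hpos _).ne' e1).symm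
    have key : ∀ a b : ℝ, Real.cos b = Real.cos a → Real.sin b = Real.sin a →
        ∃ m : ℤ, b = a + m * (2 * Real.pi) := by
      intro a b hc hs
      have h1 : Real.cos (b - a) = 1 := by
        rw [Real.cos_sub, hc, hs]
        have := Real.sin_sq_add_cos_sq a
        nlinarith
      obtain ⟨m, hm⟩ := (Real.cos_eq_one_iff _).1 h1
      exact ⟨m, by linarith⟩
    obtain ⟨m, hm⟩ := key x.1 y.1 q4 q5
    obtain ⟨n, hn⟩ := key x.2 y.2 q2 q3
    exact ⟨m, n, Prod.ext hm hn⟩

/-- **Disproof of Q1.**  Let `0 < r < R` and let `g₀` be the metric that the torus of revolution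
with radii `R, r` (a smooth isometric embedding) induces on `T²`.  For every `ε > 0` there is a
smooth metric `g` on `T²` with `‖g - g₀‖_{C⁰} < ε` that has no smooth isometric embedding into
Euclidean 3-space, and not even an isometric immersion of class `C³`. -/
theorem result (R r : ℝ) (hr : 0 < r) (hR : r < R) :
    ∃ g₀ : TorusMetric, IsIsometricEmbedding g₀ (torus R r) ∧
      ∀ ε : ℝ, 0 < ε → ∃ g : TorusMetric, c0dist g g₀ < ENNReal.ofReal ε ∧
        (¬ ∃ f, IsIsometricEmbedding g f) ∧ ¬ ∃ f, IsIsometricImmersion 3 g f := by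
  refine ⟨met R r r hr hr.le hR, torus_embedding R r hr hR, fun ε hε => ?_⟩
  have hRr : 0 < R - r := by linarith
  have hc : 0 < 2 * (R + r) / (R - r) ^ 2 := by
    have : 0 < R + r := by linarith
    positivity
  set c := 2 * (R + r) / (R - r) ^ 2 with hcdef
  set s := r - min (r / 2) (ε / (2 * c)) with hsdef
  have hmin1 : 0 < min (r / 2) (ε / (2 * c)) := lt_min (by positivity) (by positivity)
  have hmin2 : min (r / 2) (ε / (2 * c)) ≤ r / 2 := min_le_left _ _
  have hmin3 : min (r / 2) (ε / (2 * c)) ≤ ε / (2 * c) := min_le_right _ _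
  have hs0 : 0 < s := by linarith
  have hsr : s < r := by linarith
  have hsR : s < R := by linarith
  have hno : ¬ ∃ f, IsIsometricImmersion 3 (met R s r hr hs0.le hsR) f := by
    rintro ⟨f, hf⟩
    have hrot : Pool.Agent.TH613.Rot R s r f :=
      { hr := hr
        hs := hs0.le
        hR := hsR
        smooth := hf.contDiff
        uu := fun x => by
          have := hf.isometric x 0 0
          simpa [met, vec, Matrix.diagonal, Pool.Agent.TH613.Du, -inner_self_eq_norm_sq_to_K]
            using this
        uv := fun x => by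
          have := hf.isometric x 0 1
          simpa [met, vec, Matrix.diagonal, Pool.Agent.TH613.Du, Pool.Agent.TH613.Dv] using this
        vv := fun x => by
          have := hf.isometric x 1 1
          simpa [met, vec, Matrix.diagonal, Pool.Agent.TH613.Dv, -inner_self_eq_norm_sq_to_K]
            using this }
    exact Pool.Agent.TH613.no_immersion hrot hs0 hsr (fun x => (hf.onTorus x).1)
      (fun x => (hf.onTorus x).2)
  refine ⟨met R s r hr hs0.le hsR, ?_, ?_, hno⟩
  · refine lt_of_le_of_lt (b := ENNReal.ofReal (ε / 2)) ?_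
      ((ENNReal.ofReal_lt_ofReal_iff hε).2 (by linarith))
    refine iSup_le fun x => ENNReal.ofReal_le_ofReal ?_
    set a := R + r * Real.cos x.2 with ha
    set b := R + s * Real.cos x.2 with hb
    have h1 := Real.neg_one_le_cos x.2
    have h2 := Real.cos_le_one x.2
    have ha1 : R - r ≤ a := by nlinarith
    have ha2 : a ≤ R + r := by nlinarith
    have hb1 : 0 < b := by nlinarith
    have hb2 : b ≤ R + r := by nlinarith
    have ha0 : 0 < a := by linarith
    have hnorm : tensorNorm ((met R r r hr hr.le hR).g x)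
        ((met R s r hr hs0.le hsR).g x - (met R r r hr hr.le hR).g x) =
        |(b ^ 2 - a ^ 2) / a ^ 2| := by
      unfold tensorNorm
      change Real.sqrt (Matrix.trace ((Matrix.diagonal ![a ^ 2, r ^ 2])⁻¹ *
        (Matrix.diagonal ![b ^ 2, r ^ 2] - Matrix.diagonal ![a ^ 2, r ^ 2]) *
        ((Matrix.diagonal ![a ^ 2, r ^ 2])⁻¹ *
        (Matrix.diagonal ![b ^ 2, r ^ 2] - Matrix.diagonal ![a ^ 2, r ^ 2])))) = _
      have hinv : (Matrix.diagonal ![a ^ 2, r ^ 2])⁻¹ =
          Matrix.diagonal ![(a ^ 2)⁻¹, (r ^ 2)⁻¹] := by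
        refine Matrix.inv_eq_right_inv ?_
        rw [Matrix.diagonal_mul_diagonal]
        ext i j
        fin_cases i <;> fin_cases j <;> simp [ha0.ne', hr.ne']
      rw [hinv, Matrix.diagonal_sub, Matrix.diagonal_mul_diagonal, Matrix.diagonal_mul_diagonal,
        Matrix.trace_diagonal, Fin.sum_univ_two, ← Real.sqrt_sq_eq_abs]
      congr 1
      simp
      field_simp
    rw [hnorm, abs_div, abs_of_pos (pow_pos ha0 2), div_le_iff₀ (pow_pos ha0 2)]
    have h3 : b ^ 2 - a ^ 2 = -((r - s) * Real.cos x.2 * (b + a)) := by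
      rw [ha, hb]; ring
    have h4 : |b ^ 2 - a ^ 2| ≤ (r - s) * (2 * (R + r)) := by
      rw [h3, abs_neg, abs_mul, abs_mul, abs_of_pos (by linarith : 0 < r - s),
        abs_of_pos (by linarith : 0 < b + a)]
      have h5 : |Real.cos x.2| ≤ 1 := abs_le.2 ⟨h1, h2⟩
      have h6 : (r - s) * |Real.cos x.2| ≤ (r - s) * 1 :=
        mul_le_mul_of_nonneg_left h5 (by linarith)
      have h7 : 0 ≤ b + a := by linarith
      nlinarith [mul_le_mul_of_nonneg_right h6 h7]
    have h8 : r - s ≤ ε / (2 * c) := by
      have : r - s = min (r / 2) (ε / (2 * c)) := by rw [hsdef]; ring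
      rw [this]; exact hmin3
    have h9 : (r - s) * (2 * (R + r)) ≤ ε / 2 * (R - r) ^ 2 := by
      have h10 : (r - s) * (2 * (R + r)) ≤ ε / (2 * c) * (2 * (R + r)) :=
        mul_le_mul_of_nonneg_right h8 (by linarith)
      have h11 : ε / (2 * c) * (2 * (R + r)) = ε / 2 * (R - r) ^ 2 := by
        rw [hcdef]
        have : R + r ≠ 0 := by linarith
        field_simp
      linarith
    have h12 : (R - r) ^ 2 ≤ a ^ 2 := pow_le_pow_left₀ hRr.le ha1 2
    calc |b ^ 2 - a ^ 2| ≤ ε / 2 * (R - r) ^ 2 := h4.trans h9
      _ ≤ ε / 2 * a ^ 2 := mul_le_mul_of_nonneg_left h12 (by linarith)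
  · rintro ⟨f, hf⟩
    exact hno ⟨f, { contDiff := by exact_mod_cast contDiff_infty.1 hf.contDiff 3
                    onTorus := hf.onTorus
                    isometric := hf.isometric }⟩

end Pool.Agent.Results.MP_665542_gt.TorusNotStable
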